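import Pool.Agent.helper68.FY.Spec
import Pool.Agent.helper47.RA.Num

/-!
# Project fy, row FN2: numerics, case II
-/

set_option autoImplicit false

namespace Pool.Agent.helper68.FY

open Finset

/-- half of a real number `≥ 1` is at most its floor -/
theorem FN2_floor {x : ℝ} (hx : 1 ≤ x) : x / 2 ≤ (⌊x⌋₊ : ℝ) := by
  have h1 : x < ⌊x⌋₊ + 1 := Nat.lt_floor_add_one x
  have h2 : 1 ≤ ⌊x⌋₊ := by
    rw [Nat.one_le_floor_iff]
    exact hx
  have h3 : (1 : ℝ) ≤ (⌊x⌋₊ : ℝ) := by exact_mod_cast h2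
  linarith

/-- the main numerical inequality -/
theorem FN2_num (c u a q M L D lg s : ℝ) (hc : 0 ≤ c) (hu : 1 ≤ u) (hcu : 8192 * c ≤ u)
    (ha : 0 < a) (hq : 0 < q) (haM : a ≤ M) (hM3 : a ^ 3 * u ^ 48 ≤ q ^ 4 * M)
    (hL : q / (16 * u ^ 4) ≤ L) (hD0 : 0 ≤ D) (hD : D ≤ u) (hlg0 : 0 ≤ lg) (hlg : lg ≤ u)
    (hs : s = u * (1 + M / a) * M ^ 2) :
    c * D ^ 2 * lg * s * a ^ 4 / (q * L ^ 3 * M ^ 4) ≤ 1 / u ^ 31 := by
  have hu0 : 0 < u := by linarith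
  have hM : 0 < M := by linarith
  have hL0 : 0 < L := lt_of_lt_of_le (by positivity) hL
  have hs1 : s * a ≤ 2 * u * M ^ 3 := by
    rw [hs]
    have e : u * (1 + M / a) * M ^ 2 * a = u * (a + M) * M ^ 2 := by
      field_simp
    rw [e]
    have e2 : u * (a + M) * M ^ 2 ≤ u * (M + M) * M ^ 2 := by gcongr
    calc u * (a + M) * M ^ 2 ≤ u * (M + M) * M ^ 2 := e2
      _ = 2 * u * M ^ 3 := by ring
  have hs0 : 0 ≤ s := by rw [hs]; positivity
  rw [div_le_div_iff₀ (by positivity) (by positivity)]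
  have h1 : c * D ^ 2 * lg * s * a ^ 4 * u ^ 31 ≤ 2 * c * u ^ 35 * M ^ 3 * a ^ 3 := by
    calc c * D ^ 2 * lg * s * a ^ 4 * u ^ 31 = (c * D ^ 2 * lg) * (s * a) * (a ^ 3 * u ^ 31) := by ring
      _ ≤ (c * u ^ 2 * u) * (2 * u * M ^ 3) * (a ^ 3 * u ^ 31) := by gcongr
      _ = 2 * c * u ^ 35 * M ^ 3 * a ^ 3 := by ring
  have h2 : a ^ 3 * u ^ 36 * M ^ 3 / 4096 ≤ q * L ^ 3 * M ^ 4 := by
    have e1 : (q / (16 * u ^ 4)) ^ 3 ≤ L ^ 3 := by gcongr
    calc a ^ 3 * u ^ 36 * M ^ 3 / 4096 = (a ^ 3 * u ^ 48) * (M ^ 3 / (4096 * u ^ 12)) := by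
          field_simp
      _ ≤ (q ^ 4 * M) * (M ^ 3 / (4096 * u ^ 12)) := by gcongr
      _ = q * (q / (16 * u ^ 4)) ^ 3 * M ^ 4 := by
          field_simp
          norm_num
      _ ≤ q * L ^ 3 * M ^ 4 := by gcongr
  have h3 : 2 * c * u ^ 35 * M ^ 3 * a ^ 3 ≤ a ^ 3 * u ^ 36 * M ^ 3 / 4096 := by
    have e : 2 * c ≤ u / 4096 := by linarith
    calc 2 * c * u ^ 35 * M ^ 3 * a ^ 3 = (2 * c) * (u ^ 35 * M ^ 3 * a ^ 3) := by ring
      _ ≤ (u / 4096) * (u ^ 35 * M ^ 3 * a ^ 3) := by gcongr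
      _ = a ^ 3 * u ^ 36 * M ^ 3 / 4096 := by ring
  linarith

theorem FN2_core (h1 : EN_stmt) (h2 : FNC_stmt) : FN2_stmt := by
  intro ε hε
  obtain ⟨k, hk⟩ := exists_nat_gt (96 / ε)
  have hkpos : (0 : ℝ) < k := lt_trans (by positivity) hk
  have hk1 : 1 ≤ k := by
    have : (0 : ℝ) < k := hkpos
    exact_mod_cast this
  obtain ⟨Cd, hCd, hdiv⟩ := Pool.Agent.helper47.RA.card_divisors_le (ε / 192) (by positivity)
  obtain ⟨C, hC, hen⟩ := h1 (ε / 96) (by positivity)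
  obtain ⟨c, hc⟩ : ∃ c : ℝ, c = (k : ℝ) ^ (2 * k) + 4 * (k : ℝ) ^ 2 := ⟨_, rfl⟩
  have hc0 : 0 ≤ c := by rw [hc]; positivity
  -- large `p`
  obtain ⟨K, hK⟩ : ∃ K : ℝ, K = Cd + C + (1 + 192 / ε) + 8192 * c + 2 := ⟨_, rfl⟩
  have ev1 : ∀ᶠ p : ℕ in Filter.atTop, K ≤ (p : ℝ) ^ (ε / 96) :=
    ((tendsto_rpow_atTop (by positivity)).comp tendsto_natCast_atTop_atTop).eventually_ge_atTop K
  have ev2 : ∀ᶠ p : ℕ in Filter.atTop, 2 ≤ (p : ℝ) ^ (ε / (96 * k)) :=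
    ((tendsto_rpow_atTop (by positivity)).comp tendsto_natCast_atTop_atTop).eventually_ge_atTop 2
  obtain ⟨p₀, hp₀⟩ := Filter.eventually_atTop.1 (ev1.and ev2)
  refine ⟨p₀, ε / (96 * k), by positivity, ?_⟩
  intro p hpr hp χ hχ B β hβ Q hQ1 hQ2 hQ3
  obtain ⟨hw, hv⟩ := hp₀ p hp.le
  have hp1 : 2 ≤ p := hpr.out.two_le
  have hpR : (1 : ℝ) ≤ p := by exact_mod_cast (by omega : 1 ≤ p)
  have hpR2 : (2 : ℝ) ≤ p := by exact_mod_cast hp1
  have hp0 : (0 : ℝ) ≤ p := by linarith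
  obtain ⟨w, hwd⟩ : ∃ w : ℝ, w = (p : ℝ) ^ (ε / 96) := ⟨_, rfl⟩
  obtain ⟨v, hvd⟩ : ∃ v : ℝ, v = (p : ℝ) ^ (ε / (96 * k)) := ⟨_, rfl⟩
  obtain ⟨a, had⟩ : ∃ a : ℝ, a = (p : ℝ) ^ (1 / 4 : ℝ) := ⟨_, rfl⟩
  obtain ⟨u, hud⟩ : ∃ u : ℝ, u = w ^ 2 := ⟨_, rfl⟩
  rw [← hwd] at hw
  rw [← hvd] at hv
  have hε0 : 0 < 192 / ε := by positivity
  have hw2 : 2 ≤ w := by linarith
  have hwC : C ≤ w := by linarith
  have hwCd : Cd ≤ w := by linarith
  have hwl : 1 + 192 / ε ≤ w := by linarith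
  have hwc : 8192 * c ≤ w := by linarith
  have hwu : w ≤ u := by
    rw [hud]
    exact le_self_pow₀ (by linarith) (by norm_num)
  have hu1 : 1 ≤ u := by linarith
  have hu0 : 0 < u := by linarith
  have hw0 : 0 < w := by linarith
  have ha1 : 1 ≤ a := by
    rw [had]
    exact Real.one_le_rpow hpR (by norm_num)
  have ha0 : 0 < a := by linarith
  have ha4 : a ^ 4 = p := by
    rw [had, ← Real.rpow_natCast, ← Real.rpow_mul hp0]
    norm_num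
  have hwe : ∀ n : ℕ, w ^ n = (p : ℝ) ^ (ε * n / 96) := by
    intro n
    rw [hwd, ← Real.rpow_natCast, ← Real.rpow_mul hp0]
    congr 1
    ring
  have hvk : v ^ k = w := by
    rw [hvd, hwd, ← Real.rpow_natCast, ← Real.rpow_mul hp0]
    congr 1
    field_simp
  have hv2k : v ^ (2 * k) = u := by
    rw [mul_comm, pow_mul, hvk, hud]
  have hv1 : 1 ≤ v := by linarith
  have hvu : v ≤ u := by
    rw [← hv2k]
    exact le_self_pow₀ hv1 (by omega)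
  -- the hypotheses in terms of `a, u, q, M`
  obtain ⟨q, hq⟩ : ∃ q : ℝ, q = (Q : ℝ) := ⟨_, rfl⟩
  obtain ⟨M, hM⟩ : ∃ M : ℝ, M = (B.card : ℝ) := ⟨_, rfl⟩
  have hu48 : u ^ 48 = (p : ℝ) ^ ε := by
    rw [hud, ← pow_mul, hwe]
    congr 1
    push_cast
    ring
  have hu4 : u ^ 4 = (p : ℝ) ^ (ε / 12) := by
    rw [hud, ← pow_mul, hwe]
    congr 1
    push_cast
    ring
  have hp0' : (0 : ℝ) < p := by linarith
  have H1 : u ^ 48 ≤ q := by rw [hu48, hq]; exact hQ1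
  have H2 : q ^ 2 ≤ a * u ^ 4 := by
    rw [hq, hu4, had, ← Real.rpow_add hp0']
    exact hQ2
  have ha3 : a ^ 3 = (p : ℝ) ^ (3 / 4 : ℝ) := by
    rw [had, ← Real.rpow_natCast, ← Real.rpow_mul hp0]
    norm_num
  have H3 : a ^ 3 * u ^ 48 ≤ q ^ 4 * M := by
    rw [hu48, ha3, ← Real.rpow_add hp0', hq, hM]
    exact hQ3
  have hq0 : 0 < q := lt_of_lt_of_le (by positivity) H1
  have hu92 : u ^ 92 ≤ a := by
    have e1 : (u ^ 48) ^ 2 ≤ q ^ 2 := by gcongr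
    have e2 : u ^ 92 * u ^ 4 ≤ a * u ^ 4 := by
      calc u ^ 92 * u ^ 4 = (u ^ 48) ^ 2 := by ring
        _ ≤ q ^ 2 := e1
        _ ≤ a * u ^ 4 := H2
    exact le_of_mul_le_mul_right e2 (by positivity)
  have hq4 : q ^ 4 ≤ a ^ 2 * u ^ 8 := by
    calc q ^ 4 = (q ^ 2) ^ 2 := by ring
      _ ≤ (a * u ^ 4) ^ 2 := by gcongr
      _ = a ^ 2 * u ^ 8 := by ring
  have hu8 : u ^ 8 ≤ u ^ 92 := pow_le_pow_right₀ hu1 (by norm_num)
  have hq4p : q ^ 4 ≤ a ^ 3 := by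
    calc q ^ 4 ≤ a ^ 2 * u ^ 8 := hq4
      _ ≤ a ^ 2 * a := by
          have : u ^ 8 ≤ a := hu8.trans hu92
          gcongr
      _ = a ^ 3 := by ring
  have hMa : a * u ^ 40 ≤ M := by
    have e1 : a ^ 3 * u ^ 48 ≤ a ^ 2 * u ^ 8 * M := by
      have hM0 : 0 ≤ M := by rw [hM]; positivity
      calc a ^ 3 * u ^ 48 ≤ q ^ 4 * M := H3
        _ ≤ a ^ 2 * u ^ 8 * M := by gcongr
    have e2 : (a ^ 2 * u ^ 8) * (a * u ^ 40) ≤ (a ^ 2 * u ^ 8) * M := by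
      calc (a ^ 2 * u ^ 8) * (a * u ^ 40) = a ^ 3 * u ^ 48 := by ring
        _ ≤ a ^ 2 * u ^ 8 * M := e1
    exact le_of_mul_le_mul_left e2 (by positivity)
  have hu40 : 1 ≤ u ^ 40 := one_le_pow₀ hu1
  have haM : a ≤ M := le_trans (le_mul_of_one_le_right ha0.le hu40) hMa
  have huM : u ^ 40 ≤ M := le_trans (le_mul_of_one_le_left (by positivity) ha1) hMa
  have hM0 : 0 < M := by linarith
  -- `W`, `L`, `D`
  obtain ⟨W, hW⟩ : ∃ W : ℕ, W = ⌊u⌋₊ := ⟨_, rfl⟩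
  have hWu : (W : ℝ) ≤ u := by rw [hW]; exact Nat.floor_le hu0.le
  have hWw : w ≤ (W : ℝ) := by
    have e := FN2_floor hu1
    rw [← hW] at e
    have : w ≤ u / 2 := by rw [hud]; nlinarith only [hw2]
    linarith
  have hW1 : 1 ≤ W := by
    have : (1 : ℝ) ≤ W := by linarith
    exact_mod_cast this
  have hWk : p ≤ W ^ k := by
    have e1 : (p : ℝ) ≤ w ^ k := by
      rw [hwe]
      have e2 : (1 : ℝ) ≤ ε * k / 96 := by
        rw [div_lt_iff₀ hε] at hk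
        rw [le_div_iff₀ (by norm_num)]
        linarith
      calc (p : ℝ) = (p : ℝ) ^ (1 : ℝ) := (Real.rpow_one _).symm
        _ ≤ (p : ℝ) ^ (ε * k / 96) := Real.rpow_le_rpow_of_exponent_le hpR e2
    have e3 : (p : ℝ) ≤ (W : ℝ) ^ k := e1.trans (pow_le_pow_left₀ hw0.le hWw k)
    exact_mod_cast e3
  obtain ⟨L, hL⟩ : ∃ L : ℕ, L = min ⌊q / u ^ 2⌋₊ ⌊a / (8 * q)⌋₊ := ⟨_, rfl⟩
  have hLa : (L : ℝ) ≤ q / u ^ 2 := by
    have e1 : L ≤ ⌊q / u ^ 2⌋₊ := by rw [hL]; exact min_le_left _ _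
    have e2 : (L : ℝ) ≤ (⌊q / u ^ 2⌋₊ : ℝ) := by exact_mod_cast e1
    exact e2.trans (Nat.floor_le (by positivity))
  have hLb : (L : ℝ) ≤ a / (8 * q) := by
    have e1 : L ≤ ⌊a / (8 * q)⌋₊ := by rw [hL]; exact min_le_right _ _
    have e2 : (L : ℝ) ≤ (⌊a / (8 * q)⌋₊ : ℝ) := by exact_mod_cast e1
    exact e2.trans (Nat.floor_le (by positivity))
  have hqu : 8 * u ^ 4 ≤ q := by
    have e1 : (8 : ℝ) * u ^ 4 ≤ u ^ 48 := by
      have e2 : (8 : ℝ) ≤ u ^ 44 := by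
        have e3 : (2 : ℝ) ≤ u := by linarith
        calc (8 : ℝ) ≤ 2 ^ 44 := by norm_num
          _ ≤ u ^ 44 := by gcongr
      calc (8 : ℝ) * u ^ 4 ≤ u ^ 44 * u ^ 4 := by gcongr
        _ = u ^ 48 := by ring
    linarith
  have hLlow : q / (16 * u ^ 4) ≤ (L : ℝ) := by
    have e1 : q / (16 * u ^ 4) ≤ (⌊q / u ^ 2⌋₊ : ℝ) := by
      have f1 : 1 ≤ q / u ^ 2 := by
        rw [le_div_iff₀ (by positivity)]
        have h24 : u ^ 2 ≤ u ^ 4 := pow_le_pow_right₀ hu1 (by norm_num)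
        have h4 : 0 < u ^ 4 := by positivity
        linarith only [h24, h4, hqu]
      refine le_trans ?_ (FN2_floor f1)
      rw [div_div]
      apply div_le_div_of_nonneg_left hq0.le (by positivity)
      have h24 : u ^ 2 ≤ u ^ 4 := pow_le_pow_right₀ hu1 (by norm_num)
      have h4 : 0 < u ^ 4 := by positivity
      linarith only [h24, h4]
    have e2 : q / (16 * u ^ 4) ≤ (⌊a / (8 * q)⌋₊ : ℝ) := by
      have f0 : q / (8 * u ^ 4) ≤ a / (8 * q) := by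
        rw [div_le_div_iff₀ (by positivity) (by positivity)]
        linarith only [H2]
      have f1 : 1 ≤ a / (8 * q) := by
        refine le_trans ?_ f0
        rw [le_div_iff₀ (by positivity)]
        linarith
      refine le_trans ?_ (FN2_floor f1)
      have : q / (16 * u ^ 4) = q / (8 * u ^ 4) / 2 := by
        field_simp
        norm_num
      rw [this]
      linarith
    rw [hL, Nat.cast_min]
    exact le_min e1 e2
  have hL0 : 0 < (L : ℝ) := lt_of_lt_of_le (by positivity) hLlow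
  have hL1 : 1 ≤ L := by
    have : 0 < L := by exact_mod_cast hL0
    omega
  have hLW : L * W ≤ Q := by
    have : (L : ℝ) * W ≤ q := by
      calc (L : ℝ) * W ≤ (q / u ^ 2) * u := by gcongr
        _ = q / u := by field_simp
        _ ≤ q := div_le_self hq0.le hu1
    rw [hq] at this
    exact_mod_cast this
  have hQL : 2 * q * L ≤ a / 4 := by
    calc 2 * q * L ≤ 2 * q * (a / (8 * q)) := by gcongr
      _ = a / 4 := by
          field_simp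
          norm_num
  have haa : a ≤ a ^ 4 := le_self_pow₀ ha1 (by norm_num)
  have hQLp : 2 * Q * L < p := by
    have : (2 : ℝ) * Q * L < p := by
      rw [← hq, ← ha4]
      linarith
    exact_mod_cast this
  obtain ⟨D, hD⟩ : ∃ D : ℕ, D = ⌊u⌋₊ := ⟨_, rfl⟩
  have hDu : (D : ℝ) ≤ u := by rw [hD]; exact Nat.floor_le hu0.le
  have hDdiv : ∀ n, 1 ≤ n → n ≤ 4 * Q ^ 4 → n.divisors.card ≤ D := by
    intro n hn1 hn2
    rw [hD]
    apply Nat.le_floor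
    have e1 := hdiv n (by omega)
    have e2 : (n : ℝ) ≤ (p : ℝ) ^ 2 := by
      have f1 : (n : ℝ) ≤ 4 * (Q : ℝ) ^ 4 := by exact_mod_cast hn2
      have f2 : (4 : ℝ) ≤ a ^ 5 := by
        have g1 : (2 : ℝ) ≤ a := by
          have : u ≤ u ^ 92 := le_self_pow₀ hu1 (by norm_num)
          linarith
        calc (4 : ℝ) ≤ 2 ^ 5 := by norm_num
          _ ≤ a ^ 5 := by gcongr
      calc (n : ℝ) ≤ 4 * q ^ 4 := by rw [hq]; exact f1
        _ ≤ a ^ 5 * a ^ 3 := by gcongr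
        _ = (a ^ 4) ^ 2 := by ring
        _ = (p : ℝ) ^ 2 := by rw [ha4]
    have e3 : (n : ℝ) ^ (ε / 192) ≤ w := by
      calc (n : ℝ) ^ (ε / 192) ≤ ((p : ℝ) ^ 2) ^ (ε / 192) :=
            Real.rpow_le_rpow (by positivity) e2 (by positivity)
        _ = w := by
            rw [hwd, ← Real.rpow_natCast, ← Real.rpow_mul hp0]
            congr 1
            push_cast
            ring
    calc ((n.divisors.card : ℕ) : ℝ) ≤ Cd * (n : ℝ) ^ (ε / 192) := e1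
      _ ≤ w * w := by gcongr
      _ = u := by rw [hud]; ring
  -- the logarithm
  have hlog : (1 : ℝ) + Nat.log 2 (2 * Q * L) ≤ u := by
    have e1 : Nat.log 2 (2 * Q * L) ≤ Nat.log 2 p := Nat.log_mono_right hQLp.le
    have e2 : (Nat.log 2 p : ℝ) ≤ Real.logb 2 p := by
      rw [Real.le_logb_iff_rpow_le (by norm_num) hp0', Real.rpow_natCast]
      exact_mod_cast Nat.pow_log_le_self 2 (by omega)
    have e3 : Real.logb 2 p ≤ 2 * Real.log p := by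
      rw [Real.logb, div_le_iff₀ (Real.log_pos (by norm_num))]
      have f1 : (1 / 2 : ℝ) ≤ Real.log 2 := by
        have := Real.log_two_gt_d9
        linarith
      have f2 : 0 ≤ Real.log p := Real.log_nonneg hpR
      linarith only [mul_le_mul_of_nonneg_left f1 f2]
    have e4 : Real.log p ≤ (p : ℝ) ^ (ε / 96) / (ε / 96) :=
      Real.log_le_rpow_div hp0 (by positivity)
    rw [← hwd] at e4
    have e5 : (Nat.log 2 (2 * Q * L) : ℝ) ≤ (Nat.log 2 p : ℝ) := by exact_mod_cast e1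
    have e6 : 2 * (w / (ε / 96)) = 192 / ε * w := by
      field_simp
      norm_num
    have e7 : (1 : ℝ) + 192 / ε * w ≤ (1 + 192 / ε) * w := by linarith only [hw2]
    have e8 : (1 + 192 / ε) * w ≤ w * w := by gcongr
    have e9 : w * w = u := by rw [hud]; ring
    linarith
  -- `s`
  obtain ⟨s, hs⟩ : ∃ s : ℝ, s = u * (1 + M / a) * M ^ 2 := ⟨_, rfl⟩
  have hcnt : ∀ G : ℕ, 1 ≤ G → G ≤ 2 * Q * L → (cnt B.offDiag (rp p) G : ℝ) ≤ s * (G : ℝ) ^ 2 := by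
    intro G hG1 hG2
    have e1 : (G : ℝ) ≤ a / 4 := by
      have : (G : ℝ) ≤ 2 * Q * L := by exact_mod_cast hG2
      rw [← hq] at this
      linarith
    have e2 : 28 * G ^ 4 < p := by
      have f1 : (28 : ℝ) * (G : ℝ) ^ 4 < p := by
        calc (28 : ℝ) * (G : ℝ) ^ 4 ≤ 28 * (a / 4) ^ 4 := by gcongr
          _ = 28 / 256 * a ^ 4 := by ring
          _ < a ^ 4 := by
              have : 0 < a ^ 4 := by positivity
              linarith
          _ = p := ha4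
      exact_mod_cast f1
    have e3 := (hen p G B hG1).2 e2
    rw [← had, ← hwd, ← hM] at e3
    calc (cnt B.offDiag (rp p) G : ℝ) ≤ C * w * (1 + M / a) * (G : ℝ) ^ 2 * M ^ 2 := e3
      _ ≤ w * w * (1 + M / a) * (G : ℝ) ^ 2 * M ^ 2 := by gcongr
      _ = s * (G : ℝ) ^ 2 := by rw [hs, hud]; ring
  have hBc : 1 ≤ B.card := by
    have : (0 : ℝ) < B.card := by rw [← hM]; exact hM0
    exact_mod_cast this
  have hmain := h2 p χ hχ B β hβ Q L W k D s hL1 hW1 hk1 hLW hQLp hWk hBc hDdiv hcnt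
  rw [← hq, ← hM, ← hc, ← ha4] at hmain
  have hX := FN2_num c u a q M L D (1 + Nat.log 2 (2 * Q * L)) s hc0 hu1 (by linarith) ha0 hq0 haM
    H3 hLlow (by positivity) hDu (by positivity) hlog hs
  have hX0 : 0 ≤ c * (D : ℝ) ^ 2 * (1 + (Nat.log 2 (2 * Q * L) : ℝ)) * s * a ^ 4 /
      (q * (L : ℝ) ^ 3 * M ^ 4) := by
    have : 0 ≤ s := by rw [hs]; positivity
    positivity
  have hXr : (c * (D : ℝ) ^ 2 * (1 + (Nat.log 2 (2 * Q * L) : ℝ)) * s * a ^ 4 /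
      (q * (L : ℝ) ^ 3 * M ^ 4)) ^ (1 / (2 * (k : ℝ))) ≤ 1 / v ^ 31 := by
    calc _ ≤ (1 / u ^ 31) ^ (1 / (2 * (k : ℝ))) :=
          Real.rpow_le_rpow hX0 hX (by positivity)
      _ = ((1 / v ^ 31) ^ (2 * k)) ^ (((2 * k : ℕ) : ℝ)⁻¹) := by
          rw [← hv2k]
          congr 1
          · rw [div_pow, one_pow, ← pow_mul, ← pow_mul, mul_comm]
          · push_cast
            rw [one_div]
      _ = 1 / v ^ 31 := Real.pow_rpow_inv_natCast (by positivity) (by omega)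
  -- conclusion
  have hv31 : v ^ 31 ≤ u ^ 40 :=
    (pow_le_pow_left₀ (by linarith) hvu 31).trans (pow_le_pow_right₀ hu1 (by norm_num))
  have hv0 : 0 < v := by linarith
  have t1 : 1 / M ≤ 1 / v ^ 31 := by
    apply one_div_le_one_div_of_le (by positivity)
    linarith
  have t2 : 1 / (L : ℝ) ≤ 16 / v ^ 31 := by
    rw [div_le_div_iff₀ hL0 (by positivity)]
    have e1 : u ^ 48 / (16 * u ^ 4) ≤ q / (16 * u ^ 4) := by gcongr
    have e2 : u ^ 48 / (16 * u ^ 4) = u ^ 44 / 16 := by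
      field_simp
    have e3 : u ^ 40 ≤ u ^ 44 := pow_le_pow_right₀ hu1 (by norm_num)
    linarith
  have t3 : (666 : ℝ) * v ^ 2 ≤ v ^ 31 := by
    have e1 : (666 : ℝ) ≤ v ^ 29 := by
      calc (666 : ℝ) ≤ 2 ^ 29 := by norm_num
        _ ≤ v ^ 29 := by gcongr
    calc (666 : ℝ) * v ^ 2 ≤ v ^ 29 * v ^ 2 := by gcongr
      _ = v ^ 31 := by ring
  have hsq : S1 p χ B β Q ^ 2 ≤ (v⁻¹ * q ^ 2 * M) ^ 2 := by
    calc S1 p χ B β Q ^ 2 ≤ 9 * q ^ 4 * (M + 4 * M ^ 2 / L) + 81 * q ^ 4 * M ^ 2 *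
          (c * (D : ℝ) ^ 2 * (1 + (Nat.log 2 (2 * Q * L) : ℝ)) * s * a ^ 4 /
          (q * (L : ℝ) ^ 3 * M ^ 4)) ^ (1 / (2 * (k : ℝ))) := hmain
      _ ≤ 9 * q ^ 4 * (M + 4 * M ^ 2 / L) + 81 * q ^ 4 * M ^ 2 * (1 / v ^ 31) := by gcongr
      _ = q ^ 4 * M ^ 2 * (9 * (1 / M) + 36 * (1 / L) + 81 * (1 / v ^ 31)) := by
          field_simp
          ring
      _ ≤ q ^ 4 * M ^ 2 * (9 * (1 / v ^ 31) + 36 * (16 / v ^ 31) + 81 * (1 / v ^ 31)) := by gcongr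
      _ = q ^ 4 * M ^ 2 * (666 / v ^ 31) := by ring
      _ ≤ q ^ 4 * M ^ 2 * (1 / v ^ 2) := by
          have : 666 / v ^ 31 ≤ 1 / v ^ 2 := by
            rw [div_le_div_iff₀ (by positivity) (by positivity)]
            linarith
          gcongr
      _ = (v⁻¹ * q ^ 2 * M) ^ 2 := by
          field_simp
  have hfin := le_of_pow_le_pow_left₀ (by norm_num) (by positivity) hsq
  rw [Real.rpow_neg hp0, ← hvd, ← hq, ← hM]
  exact hfin

/-- FN2 (hypotheses: EN, FNC; the divisor bound is `helper47.RA.card_divisors_le`) -/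
theorem FN2 (h1 : EN_stmt) (h2 : FNC_stmt) : FN2_stmt := FN2_core h1 h2

end Pool.Agent.helper68.FY
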